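import Pool.Agent.H.MP_7d5718_an.C

namespace Pool.Agent.Results.MP_7d5718_an.No

open Pool.Agent.H.MP_7d5718_an
open scoped ENNReal

def FreqHypercyclic {E : Type} [TopologicalSpace E] (T : E → E) : Prop :=
  ∃ x, ∀ U : Set E, IsOpen U → U.Nonempty → 0 < lowerDens {n | T^[n] x ∈ U}

def DensePeriodic {E : Type} [TopologicalSpace E] (T : E → E) : Prop :=
  Dense {x | ∃ k : ℕ, 1 ≤ k ∧ T^[k] x = x}

def UnifBounded {𝕜 X : Type} [RCLike 𝕜] [NormedAddCommGroup X] [NormedSpace 𝕜 X]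
    (S : ℤ → X ≃L[𝕜] X) : Prop :=
  ∃ C : ℝ, ∀ n, ‖(S n : X →L[𝕜] X)‖ ≤ C ∧ ‖((S n).symm : X →L[𝕜] X)‖ ≤ C

def IsShift {X : Type} [NormedAddCommGroup X] (S : ℤ → X → X) (p : ℝ≥0∞)
    (σ : lp (fun _ : ℤ => X) p → lp (fun _ : ℤ => X) p) : Prop :=
  ∀ x n, σ x n = S (n + 1) (x (n + 1))

def FHCnotDevaney {E : Type} [TopologicalSpace E] (T : E → E) : Prop :=
  Continuous T ∧ FreqHypercyclic T ∧ ¬ DensePeriodic T

theorem result (𝕜 : Type) [RCLike 𝕜] :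
    ∃ (X : Type) (_ : NormedAddCommGroup X) (_ : NormedSpace 𝕜 X) (_ : CompleteSpace X)
      (S : ℤ → X ≃L[𝕜] X), TopologicalSpace.SeparableSpace X ∧ UnifBounded S ∧
      ∀ (p : ℝ≥0∞) [Fact (1 ≤ p)], p ≠ ⊤ →
        ∃ σ, IsShift (fun n => S n) p σ ∧ FHCnotDevaney σ := by
  haveI hs : TopologicalSpace.SeparableSpace (XX 𝕜) := lp_sep 1 ENNReal.one_ne_top
  have hn : ∀ j (x : XX 𝕜), ‖QQ 𝕜 j x‖ ≤ ‖x‖ := fun j x => (QQ_norm j x).trans_le (psi_norm j x)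
  set Φ := Ph (QQ 𝕜) QQ_QQ
  set S : ℤ → XX 𝕜 ≃L[𝕜] XX 𝕜 := fun n => (Φ n).symm.trans (Φ (n - 1))
  have hS : ∀ n, ‖(S n : XX 𝕜 →L[𝕜] XX 𝕜)‖ ≤ 1584 ∧
      ‖((S n).symm : XX 𝕜 →L[𝕜] XX 𝕜)‖ ≤ 1584 := fun n => by
    have := mu_step (n - 1)
    rw [sub_add_cancel] at this
    exact ⟨ContinuousLinearMap.opNorm_le_bound _ (by norm_num) fun x =>
      Ph_bd _ QQ_QQ hn (n - 1) n (by omega) (by omega) x,
      ContinuousLinearMap.opNorm_le_bound _ (by norm_num) fun x =>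
      Ph_bd _ QQ_QQ hn n (n - 1) (by omega) (by omega) x⟩
  refine ⟨XX 𝕜, inferInstance, inferInstance, inferInstance, S, hs, ⟨1584, hS⟩, fun p _ hp => ?_⟩
  obtain ⟨σ, hσ⟩ := exists_shift p hp (fun n => (S n : XX 𝕜 →L[𝕜] XX 𝕜)) fun n => (hS n).1
  have hσ' : ∀ x n, σ x n = Φ n ((Φ (n + 1)).symm (x (n + 1))) := fun x n => by
    rw [hσ]
    change Φ (n + 1 - 1) ((Φ (n + 1)).symm (x (n + 1))) = _
    rw [add_sub_cancel_right]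
  haveI := lp_sep (ι := ℤ) (X := XX 𝕜) p hp
  refine ⟨σ, hσ, σ.continuous, ?_⟩
  simp only [FreqHypercyclic, DensePeriodic, ← ContinuousLinearMap.coe_pow']
  refine ⟨fhc σ (good_all Φ σ hσ' hp (Ph_B _ QQ_QQ hn fun a ε hε => ?_)),
    not_dense Φ σ hσ' (lp.evalCLM 𝕜 (fun _ : ℕ × ℕ => 𝕜) 1 (0, 0)) (lp.single 1 (0, 0) 1) ?_
      fun a C h => propA a C fun j => ?_⟩
  · obtain ⟨j₀, h⟩ := propB a ε hε
    refine ⟨j₀, fun J => ?_⟩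
    obtain ⟨u, u1, u2⟩ := h J
    exact ⟨u, u1, fun j c1 c2 => by rw [QQ_apply, u2 j c1 c2, zero_smul]⟩
  · change (lp.single 1 (0, 0) 1 : XX 𝕜) (0, 0) ≠ 0
    rw [lp.single_apply_self]
    exact one_ne_zero
  · rw [← QQ_norm]
    exact Ph_A _ QQ_QQ hn a C h j

end Pool.Agent.Results.MP_7d5718_an.No
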